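import Pool.Agent.helper91.RB.Spec6

/-!
# Project rb (MP_24e2e7_nt): row CF2 (from the row CHF of helper54)
-/

set_option autoImplicit false

namespace Pool.Agent.RB

open NumberField IsDedekindDomain Module
open scoped nonZeroDivisors Real Classical IsMulCommutative

theorem CF2_zq_inj {G : Type} [Group G] : Function.Injective (zq (G := G)) := by
  intro x y h
  ext g
  have h1 := congrArg (fun t : MonoidAlgebra ℚ G => t.coeff g) h
  simp only [zq, MonoidAlgebra.coeff_mapRingHom] at h1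
  exact Int.cast_injective h1

theorem CF2_zq_single {G : Type} [Group G] (g : G) :
    zq (MonoidAlgebra.single g 1) = MonoidAlgebra.single g 1 := by
  unfold zq
  rw [MonoidAlgebra.mapRingHom_single]
  simp

theorem CF2_act (hORD : ORD_stmt) {K : Type} [Field K] [NumberField K] (σ : K ≃+* K) (P : HOS K) :
    act σ (act σ.symm P) = P := by
  obtain ⟨-, -, -, -, -, -, h1, h2, -⟩ := hORD K
  rw [← h2]
  have : σ.symm.trans σ = RingEquiv.refl K := by
    ext x
    simp
  rw [this, h1]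

theorem CF2_under (hORD : ORD_stmt) {F K : Type} [Field F] [NumberField F] [Field K]
    [NumberField K] [Algebra F K] (σ : K ≃ₐ[F] K) (P : HOS K) :
    (act (σ : K ≃+* K).symm P).under (𝓞 F) = P.under (𝓞 F) := by
  obtain ⟨-, -, -, -, -, -, -, -, h3⟩ := hORD K
  apply h3
  intro x
  rw [RingEquiv.symm_apply_eq]
  exact (σ.commutes x).symm

theorem CF2_val (hORD : ORD_stmt) {F K : Type} [Field F] [NumberField F] [Field K]
    [NumberField K] [Algebra F K] (σ : K ≃ₐ[F] K) (P : HOS K) (x : K) :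
    P.valuation K (σ x) = (act (σ : K ≃+* K).symm P).valuation K x ∧
    ord P (σ x) = ord (act (σ : K ≃+* K).symm P) x := by
  obtain ⟨-, -, -, -, -, h0, -, -, -⟩ := hORD K
  have h := h0 (σ : K ≃+* K) (act (σ : K ≃+* K).symm P) x
  rw [CF2_act hORD] at h
  exact h

theorem CF2_ut (hORD : ORD_stmt) {F H : Type} [Field F] [NumberField F] [Field H]
    [NumberField H] [Algebra F H] (T V : Set (HOS F)) (σ : H ≃ₐ[F] H) (x : Hˣ)
    (hx : x ∈ Ut F H T V) : Units.map (σ : H →* H) x ∈ Ut F H T V := by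
  obtain ⟨h1, h2⟩ := hx
  refine ⟨fun P hP => ?_, fun P hP => ?_⟩
  · have e : ((Units.map (σ : H →* H) x : Hˣ) : H) - 1 = σ ((x : H) - 1) := by
      rw [map_sub, map_one]
      rfl
    rw [e, (CF2_val hORD σ P _).1]
    apply h1
    rw [CF2_under hORD]
    exact hP
  · have e : ((Units.map (σ : H →* H) x : Hˣ) : H) = σ (x : H) := rfl
    rw [e, (CF2_val hORD σ P _).1]
    apply h2
    rw [CF2_under hORD]
    exact hP

theorem CF2_ml (hORD : ORD_stmt) {F K : Type} [Field F] [NumberField F] [Field K]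
    [NumberField K] [Algebra F K] (W T : Set (HOS K))
    (hW : ∀ P Q : HOS K, P.under (𝓞 F) = Q.under (𝓞 F) → (P ∈ W ↔ Q ∈ W))
    (hT : ∀ P Q : HOS K, P.under (𝓞 F) = Q.under (𝓞 F) → (P ∈ T ↔ Q ∈ T))
    (ρ c : K ≃ₐ[F] K) (hc : ∀ x, c (ρ x) = ρ (c x)) (x : Kˣ)
    (hx : x ∈ Ml (c : K ≃+* K) W T) : Units.map (ρ : K →* K) x ∈ Ml (c : K ≃+* K) W T := by
  obtain ⟨h0, h1, h2⟩ := hx
  have e : ((Units.map (ρ : K →* K) x : Kˣ) : K) = ρ (x : K) := rfl
  refine ⟨?_, fun P hP => ?_, fun P hP => ?_⟩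
  · rw [e]
    have e1 : (c : K ≃+* K) (ρ (x : K)) = ρ ((c : K ≃+* K) (x : K)) := hc x
    rw [e1, ← map_mul, h0, map_one]
  · rw [e, (CF2_val hORD ρ P _).2]
    apply h1
    intro h
    exact hP ((hW _ _ (CF2_under hORD ρ P)).mp h)
  · have e2 : ((Units.map (ρ : K →* K) x : Kˣ) : K) - 1 = ρ ((x : K) - 1) := by
      rw [map_sub, map_one]
      rfl
    rw [e2, (CF2_val hORD ρ P _).1]
    exact h2 _ ((hT _ _ (CF2_under hORD ρ P)).mpr hP)

/-- the action on `U` -/
noncomputable def CF2_s (hORD : ORD_stmt) {F H : Type} [Field F] [NumberField F] [Field H]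
    [NumberField H] [Algebra F H] (T V : Set (HOS F)) (σ : H ≃ₐ[F] H) :
    Additive (Ut F H T V) →+ Additive (Ut F H T V) :=
  MonoidHom.toAdditive (((Units.map (σ : H →* H)).comp (Ut F H T V).subtype).codRestrict
    (Ut F H T V) (fun x => CF2_ut hORD T V σ _ x.2))

theorem CF2_s_val (hORD : ORD_stmt) {F H : Type} [Field F] [NumberField F] [Field H]
    [NumberField H] [Algebra F H] (T V : Set (HOS F)) (σ : H ≃ₐ[F] H) (x : Additive (Ut F H T V)) :
    (((Additive.toMul (CF2_s hORD T V σ x) : Ut F H T V) : Hˣ) : H) =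
      σ (((Additive.toMul x : Ut F H T V) : Hˣ) : H) := rfl

/-- the maps `β` -/
noncomputable def CF2_b (hORZ : ORZ_stmt) {F H : Type} [Field F] [NumberField F] [Field H]
    [NumberField H] [Algebra F H] [IsAbelianGalois F H] (T V : Set (HOS F)) (w : HOS H) :
    Additive (Ut F H T V) →+ MonoidAlgebra ℤ (H ≃ₐ[F] H) where
  toFun := fun x => ordZ F w (((Additive.toMul x : Ut F H T V) : Hˣ) : H)
  map_zero' := (hORZ F H w).2.1
  map_add' := fun _ _ => (hORZ F H w).1 _ _ (Units.ne_zero _) (Units.ne_zero _)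

/-- a map with values in `zq` -/
noncomputable def CF2_p {G U W : Type} [Group G] [AddCommGroup U] [AddCommGroup W] (ι : U →+ W)
    (f : W → MonoidAlgebra ℚ G) (hadd : ∀ x y, f (x + y) = f x + f y)
    (hf : ∀ x, ∃ y : MonoidAlgebra ℤ G, f (ι x) = zq y) : U →+ MonoidAlgebra ℤ G :=
  AddMonoidHom.mk' (fun x => (hf x).choose) (by
    intro a b
    apply CF2_zq_inj
    have h1 := (hf a).choose_spec
    have h2 := (hf b).choose_spec
    have h3 := (hf (a + b)).choose_spec
    have h4 : f (ι (a + b)) = f (ι a) + f (ι b) := by rw [map_add, hadd]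
    exact h3.symm.trans (h4.trans ((congrArg₂ (· + ·) h1 h2).trans (map_add _ _ _).symm)))

theorem CF2_p_spec {G U W : Type} [Group G] [AddCommGroup U] [AddCommGroup W] (ι : U →+ W)
    (f : W → MonoidAlgebra ℚ G) (hadd : ∀ x y, f (x + y) = f x + f y)
    (hf : ∀ x, ∃ y : MonoidAlgebra ℤ G, f (ι x) = zq y) (x : U) :
    f (ι x) = zq (CF2_p ι f hadd hf x) := (hf x).choose_spec

theorem CF2_div {G W : Type} [Group G] [AddCommGroup W] [Module (MonoidAlgebra ℚ G) W] (n : ℕ)
    (hn : n ≠ 0) (w : W) (h : n • w = 0) : w = 0 := by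
  have h1 : ((n : MonoidAlgebra ℚ G)) • w = 0 := by
    rw [Nat.cast_smul_eq_nsmul]
    exact h
  have h2 : (algebraMap ℚ (MonoidAlgebra ℚ G) (n : ℚ)⁻¹) * (n : MonoidAlgebra ℚ G) = 1 := by
    rw [← map_natCast (algebraMap ℚ (MonoidAlgebra ℚ G)) n, ← map_mul, inv_mul_cancel₀, map_one]
    exact_mod_cast hn
  calc w = (1 : MonoidAlgebra ℚ G) • w := (one_smul _ w).symm
    _ = (algebraMap ℚ (MonoidAlgebra ℚ G) (n : ℚ)⁻¹) • ((n : MonoidAlgebra ℚ G) • w) := by
        rw [smul_smul, h2]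
    _ = 0 := by rw [h1, smul_zero]

/-- the subgroup `M` -/
noncomputable def CF2_M {F K H : Type} [Field F] [NumberField F] [Field K] [NumberField K]
    [Field H] [NumberField H] [Algebra F H] [Algebra K H] (T V : Set (HOS F)) (c : K ≃+* K)
    (W' T' : Set (HOS K)) : AddSubgroup (Additive (Ut F H T V)) :=
  Subgroup.toAddSubgroup (((Ml c W' T').map (Units.map (algebraMap K H : K →* H))).comap
    (Ut F H T V).subtype)

theorem CF2_M_mem {F K H : Type} [Field F] [NumberField F] [Field K] [NumberField K]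
    [Field H] [NumberField H] [Algebra F H] [Algebra K H] (T V : Set (HOS F)) (c : K ≃+* K)
    (W' T' : Set (HOS K)) (x : Additive (Ut F H T V)) :
    x ∈ CF2_M T V c W' T' ↔ ∃ y ∈ Ml c W' T', algebraMap K H (y : K) =
      (((Additive.toMul x : Ut F H T V) : Hˣ) : H) := by
  constructor
  · rintro ⟨y, hy, h⟩
    exact ⟨y, hy, congrArg Units.val h⟩
  · rintro ⟨y, hy, h⟩
    exact ⟨y, hy, Units.ext h⟩


theorem CF2 (hORD : ORD_stmt) (hCH2 : CH2_stmt) (hTWR : TWR_stmt) (hCP2 : CP2_stmt)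
    (hIDM : IDM_stmt) (hINJ : INJ_stmt) (hORZ : ORZ_stmt) (hVLU : VLU_stmt) : CF2_stmt := by
  intro F H _ _ _ _ _ _ _ _ r D m hm Lf hLf Θ hΘ W _ _ ι hι o ho u hu f hf χ hχ
  have hcB : D.c ∉ χ.ker := by
    intro h
    rw [MonoidHom.mem_ker, hχ] at h
    have h1 : ((-1 : ℂˣ) : ℂ) = ((1 : ℂˣ) : ℂ) := by rw [h]
    rw [Units.val_neg, Units.val_one] at h1
    norm_num at h1
  obtain ⟨k, K, i1, i2, i3, i4, i5, i6, i7, i8, i9, i10, i11, i12, i13, i14, i15, hker, hfix, hne,
    hrank⟩ := hTWR F H D.c D.hc χ.ker hcB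
  have hcc : D.c * D.c = 1 := by
    ext x
    rw [AlgEquiv.mul_apply, D.hc, D.hc]
    exact IsCMField.complexConj_apply_apply H x
  set res : (H ≃ₐ[F] H) →* (K ≃ₐ[F] K) := AlgEquiv.restrictNormalHom K with hres
  have hresx : ∀ (σ : H ≃ₐ[F] H) (x : K), algebraMap K H (res σ x) = σ (algebraMap K H x) :=
    fun σ x => AlgEquiv.restrictNormal_commutes σ K x
  set c' : K ≃ₐ[F] K := res D.c with hc'
  set W' : Set (HOS K) := {P : HOS K | ∃ j, P.under (𝓞 F) = (D.w j).under (𝓞 F)} with hW'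
  set T' : Set (HOS K) := {P : HOS K | P.under (𝓞 F) ∈ D.T} with hT'
  have hsplit : ∀ j, {P : HOS H | P.under (𝓞 F) = (D.w j).under (𝓞 F)}.ncard = finrank F H := by
    intro j
    rw [D.hw j]
    exact D.hvs j
  have hwinj : ∀ i j, (D.w i).under (𝓞 F) = (D.w j).under (𝓞 F) → i = j := by
    intro i j h
    rw [D.hw i, D.hw j] at h
    exact D.hv h
  obtain ⟨hle, hidx, z, hz⟩ := hCP2 F k K H r D hfix hne (by rw [hrank, hker]) Lf hLf Θ hΘ
  obtain ⟨hinj1, hinj2⟩ := hINJ F H r D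
  have hordK := hORD K
  obtain ⟨hv1, -, -, hv2⟩ := hVLU K H
  set M : AddSubgroup (Additive (Ut F H (D.T : Set (HOS F)) (Set.range D.v))) := CF2_M (D.T : Set (HOS F)) (Set.range D.v) (c' : K ≃+* K) W' T' with hM
  -- the elements of `M`
  have hMs : ∀ g : H ≃ₐ[F] H, ∀ x ∈ M, CF2_s hORD (D.T : Set (HOS F)) (Set.range D.v) g x ∈ M := by
    intro g x hx
    rw [hM, CF2_M_mem] at hx ⊢
    obtain ⟨y, hy, hyx⟩ := hx
    have hcomm : ∀ t : K, c' (res g t) = res g (c' t) := by
      intro t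
      have h1 : c' * res g = res g * c' := by
        rw [hc', ← map_mul, ← map_mul, mul_comm]
      exact congrArg (fun q : K ≃ₐ[F] K => q t) h1
    refine ⟨Units.map ((res g : K ≃ₐ[F] K) : K →* K) y, ?_, ?_⟩
    · refine CF2_ml hORD W' T' ?_ ?_ (res g) c' hcomm y hy
      · intro P Q hPQ
        rw [hW', Set.mem_ofPred_eq, Set.mem_ofPred_eq, hPQ]
      · intro P Q hPQ
        rw [hT', Set.mem_ofPred_eq, Set.mem_ofPred_eq, hPQ]
    · rw [CF2_s_val, ← hyx]
      exact hresx g (y : K)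
  have hMb : ∀ b ∈ χ.ker, ∀ x ∈ M, CF2_s hORD (D.T : Set (HOS F)) (Set.range D.v) b x = x := by
    intro b hb x hx
    rw [hM, CF2_M_mem] at hx
    obtain ⟨y, hy, hyx⟩ := hx
    have h1 : res b = 1 := by
      have : b ∈ res.ker := by rw [hker]; exact hb
      exact this
    apply Additive.toMul.injective
    apply Subtype.ext
    apply Units.ext
    rw [CF2_s_val, ← hyx, ← hresx, h1]
    rfl
  have hMc1 : ∀ x ∈ M, (((Additive.toMul x : Ut F H (D.T : Set (HOS F)) (Set.range D.v)) : Hˣ) : H) *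
      D.c (((Additive.toMul x : Ut F H (D.T : Set (HOS F)) (Set.range D.v)) : Hˣ) : H) = 1 := by
    intro x hx
    rw [hM, CF2_M_mem] at hx
    obtain ⟨y, hy, hyx⟩ := hx
    rw [← hyx, ← hresx, ← map_mul]
    have h1 : (y : K) * c' (y : K) = 1 := hy.1
    have h2 : (y : K) * res D.c (y : K) = 1 := h1
    rw [h2, map_one]
  have hMc : ∀ x ∈ M, CF2_s hORD (D.T : Set (HOS F)) (Set.range D.v) D.c x = -x := by
    intro x hx
    have h1 := hMc1 x hx
    rw [eq_neg_iff_add_eq_zero, add_comm]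
    apply Additive.toMul.injective
    apply Subtype.ext
    apply Units.ext
    exact h1
  have hβ : ∀ (j : Fin r) (g : H ≃ₐ[F] H) (x : Additive (Ut F H (D.T : Set (HOS F)) (Set.range D.v))),
      CF2_b hORZ (D.T : Set (HOS F)) (Set.range D.v) (D.w j) (CF2_s hORD (D.T : Set (HOS F)) (Set.range D.v) g x) =
        MonoidAlgebra.single g 1 * CF2_b hORZ (D.T : Set (HOS F)) (Set.range D.v) (D.w j) x := by
    intro j g x
    exact (hORZ F H (D.w j)).2.2.2.1 g _
  have hιs : ∀ (g : H ≃ₐ[F] H) (x : Additive (Ut F H (D.T : Set (HOS F)) (Set.range D.v))),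
      ι (CF2_s hORD (D.T : Set (HOS F)) (Set.range D.v) g x) = (MonoidAlgebra.single g 1 : MonoidAlgebra ℚ (H ≃ₐ[F] H)) • ι x := by
    intro g x
    exact hι.equiv g (Additive.toMul x) (Additive.toMul (CF2_s hORD (D.T : Set (HOS F)) (Set.range D.v) g x)) (CF2_s_val hORD (D.T : Set (HOS F)) (Set.range D.v) g x)
  have hφ : ∀ (i : Fin r) (g : H ≃ₐ[F] H) (x : Additive (Ut F H (D.T : Set (HOS F)) (Set.range D.v))),
      CF2_p ι (f i) (map_add (f i)) (hf i) (CF2_s hORD (D.T : Set (HOS F)) (Set.range D.v) g x) =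
        MonoidAlgebra.single g 1 * CF2_p ι (f i) (map_add (f i)) (hf i) x := by
    intro i g x
    apply CF2_zq_inj
    rw [map_mul, ← CF2_p_spec, ← CF2_p_spec, hιs, map_smul, CF2_zq_single, smul_eq_mul]
  have hβE : ∀ j : Fin r, ∀ x ∈ M, CF2_b hORZ (D.T : Set (HOS F)) (Set.range D.v) (D.w j) x ∈ Elat χ.ker D.c := by
    intro j x hx
    refine ⟨fun b hb => ?_, ?_⟩
    · rw [← hβ, hMb b hb x hx]
    · rw [← hβ, hMc x hx, map_neg]
  have hMinj : ∀ x ∈ M, (∀ j : Fin r, CF2_b hORZ (D.T : Set (HOS F)) (Set.range D.v) (D.w j) x = 0) → x = 0 := by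
    intro x hx h0
    have h1 := hinj1 ((Additive.toMul x : Ut F H (D.T : Set (HOS F)) (Set.range D.v)) : Hˣ) (Additive.toMul x : Ut F H (D.T : Set (HOS F)) (Set.range D.v)).2
      (hMc1 x hx) h0
    apply Additive.toMul.injective
    apply Subtype.ext
    exact h1
  -- the index
  have hN : ∀ y : Fin r → MonoidAlgebra ℤ (H ≃ₐ[F] H),
      y ∈ M.map (AddMonoidHom.pi (fun j => CF2_b hORZ (D.T : Set (HOS F)) (Set.range D.v) (D.w j))) ↔
      ∃ x ∈ Ml (c' : K ≃+* K) W' T', ∀ j, y j = ordZ F (D.w j) (algebraMap K H (x : K)) := by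
    intro y
    constructor
    · rintro ⟨x, hx, hxy⟩
      have hx' : x ∈ M := hx
      rw [hM, CF2_M_mem] at hx'
      obtain ⟨t, ht, htx⟩ := hx'
      refine ⟨t, ht, fun j => ?_⟩
      rw [← hxy, htx]
      rfl
    · rintro ⟨t, ht, hty⟩
      have hU : Units.map (algebraMap K H : K →* H) t ∈ Ut F H (D.T : Set (HOS F)) (Set.range D.v) := by
        refine ⟨fun P hP => ?_, fun P hP => ?_⟩
        · have e : ((Units.map (algebraMap K H : K →* H) t : Hˣ) : H) - 1 =
              algebraMap K H ((t : K) - 1) := by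
            rw [map_sub, map_one]
            rfl
          rw [e]
          obtain ⟨e', -, he'⟩ := hv1 P
          rw [(he' ((t : K) - 1)).2.2.1]
          apply ht.2.2
          change (P.under (𝓞 K)).under (𝓞 F) ∈ D.T
          rw [hv2 F P]
          exact hP
        · have e : ((Units.map (algebraMap K H : K →* H) t : Hˣ) : H) =
              algebraMap K H (t : K) := rfl
          rw [e]
          obtain ⟨e', -, he'⟩ := hv1 P
          rw [(he' (t : K)).2.2.2]
          rw [← hordK.2.2.1 (t : K) _ t.ne_zero]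
          apply ht.2.1
          rintro ⟨j, hj⟩
          apply hP
          rw [hv2 F P, D.hw j] at hj
          exact ⟨j, hj.symm⟩
      refine ⟨Additive.ofMul ⟨_, hU⟩, ?_, ?_⟩
      · change Additive.ofMul (⟨_, hU⟩ : Ut F H (D.T : Set (HOS F)) (Set.range D.v)) ∈ M
        rw [hM, CF2_M_mem]
        exact ⟨t, ht, rfl⟩
      · funext j
        exact (hty j).symm
  have hIDX := hIDM F K H r D.w hsplit hwinj D.c hcc T' hle _ hN
  rw [hker] at hIDX
  have hI : (M.map (AddMonoidHom.pi (fun j => CF2_b hORZ (D.T : Set (HOS F)) (Set.range D.v) (D.w j)))).relIndex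
      (AddSubgroup.pi Set.univ (fun _ : Fin r => Elat χ.ker D.c)) ≠ 0 := by
    rw [hIDX]
    exact hidx
  -- injectivity on the minus part
  have hWm : ∀ w : W, (MonoidAlgebra.single D.c 1 : MonoidAlgebra ℚ (H ≃ₐ[F] H)) • w = -w →
      (∀ j, o j w = 0) → w = 0 := by
    intro w hw hwo
    obtain ⟨n, x, hn, hx⟩ := hι.denom w
    have h1 : ι (Additive.ofMul x + CF2_s hORD (D.T : Set (HOS F)) (Set.range D.v) D.c (Additive.ofMul x)) = 0 := by
      rw [map_add, hιs, ← hx, smul_comm, hw, smul_neg, add_neg_cancel]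
    obtain ⟨n', hn', hx'⟩ := hι.ker (x * Additive.toMul (CF2_s hORD (D.T : Set (HOS F)) (Set.range D.v) D.c (Additive.ofMul x))) h1
    have h2 := hinj2 _ (x * Additive.toMul (CF2_s hORD (D.T : Set (HOS F)) (Set.range D.v) D.c (Additive.ofMul x))).2 n' hn'
      (congrArg Subtype.val hx')
    have h3 : ((x : Hˣ) : H) * D.c ((x : Hˣ) : H) = 1 := congrArg Units.val h2
    have h4 : ∀ j, ordZ F (D.w j) ((x : Hˣ) : H) = 0 := by
      intro j
      apply CF2_zq_inj
      rw [← ho j x, ← hx, map_nsmul, hwo j, smul_zero, map_zero]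
    have h5 := hinj1 (x : Hˣ) x.2 h3 h4
    have h6 : x = 1 := Subtype.ext h5
    rw [h6, ofMul_one, map_zero] at hx
    exact CF2_div (G := H ≃ₐ[F] H) n hn w hx
  rw [hker] at hz
  exact hCH2 (H ≃ₐ[F] H) m D.c hm hcc χ hχ (Additive (Ut F H (D.T : Set (HOS F)) (Set.range D.v))) (CF2_s hORD (D.T : Set (HOS F)) (Set.range D.v)) M r
    (fun j => CF2_b hORZ (D.T : Set (HOS F)) (Set.range D.v) (D.w j)) (fun i => CF2_p ι (f i) (map_add (f i)) (hf i))
    hMs hβ hφ hβE hMinj hI W ι o f hιs (fun j x => ho j (Additive.toMul x))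
    (fun i x => CF2_p_spec ι (f i) (map_add (f i)) (hf i) x) hWm u (finrank ℚ F * (Psi χ.ker D.c).card + D.S.card) z
    (by rw [hIDX, hu]; exact hz)

end Pool.Agent.RB
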